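import Mathlib
import Pool.Agent.R97.ErdosHeilbronn

/-!
# MP_6ea067_co : the largest 3-fold signed zero-sum-free sets in `ℤ_p`

`τ_±^(ℤ_p,3) = ⌊p/3⌋ + 1` for every prime `p` except `p = 2` and `p = 5`, where the value is `2` and
`3`, respectively.
-/

namespace Pool.Agent.Results.MP_6ea067_co.TauThree

open Finset Pool.Agent.R97.ErdosHeilbronn
open scoped Pointwise

/-- The restricted signed `h`-fold sumset: all `ε₁ a₁ + ⋯ + ε_h a_h` with `a₁, …, a_h ∈ A` pairwise
distinct and `ε_i ∈ {1,-1}`. -/
def rsSum {n : ℕ} (h : ℕ) (A : Finset (ZMod n)) : Set (ZMod n) :=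
  {x | ∃ (a : Fin h → ZMod n) (ε : Fin h → ℤ), Function.Injective a ∧ (∀ i, a i ∈ A) ∧
    (∀ i, ε i = 1 ∨ ε i = -1) ∧ x = ∑ i, (ε i : ZMod n) * a i}

/-- `τ_±^(ℤ_n,h)`: the largest size of a set `A ⊆ ℤ_n` with `0` not in its restricted signed
`h`-fold sumset. -/
noncomputable def tau (n h : ℕ) : ℕ :=
  sSup {k : ℕ | ∃ A : Finset (ZMod n), (0 : ZMod n) ∉ rsSum h A ∧ A.card = k}

/-- Concrete form of the condition for `h = 3`. -/
def Good {n : ℕ} (A : Finset (ZMod n)) : Prop :=
  ∀ a ∈ A, ∀ b ∈ A, ∀ c ∈ A, a ≠ b → a ≠ c → b ≠ c → a + b + c ≠ 0 ∧ a + b ≠ c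

theorem good_iff {n : ℕ} (A : Finset (ZMod n)) : (0 : ZMod n) ∉ rsSum 3 A ↔ Good A := by
  constructor
  · intro h a ha b hb c hc hab hac hbc
    have hinj : Function.Injective ![a, b, c] := by
      intro i j hij
      fin_cases i <;> fin_cases j <;> simp_all [eq_comm]
    have hmem : ∀ i, ![a, b, c] i ∈ A := by
      intro i; fin_cases i <;> assumption
    constructor
    · intro h0
      exact h ⟨![a, b, c], fun _ => 1, hinj, hmem, fun _ => Or.inl rfl, by
        rw [Fin.sum_univ_three]
        simp only [Matrix.cons_val_zero, Matrix.cons_val_one, Matrix.cons_val_two,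
          Int.cast_one, one_mul]
        exact h0.symm⟩
    · intro h0
      refine h ⟨![a, b, c], ![1, 1, -1], hinj, hmem, ?_, ?_⟩
      · intro i; fin_cases i <;> simp
      · rw [Fin.sum_univ_three]
        simp [Matrix.cons_val_zero, Matrix.cons_val_one, Matrix.cons_val_two, h0]
  · rintro h ⟨a, ε, hinj, hmem, hε, h0⟩
    rw [Fin.sum_univ_three] at h0
    have h01 : a 0 ≠ a 1 := fun h => by have := hinj h; simp at this
    have h02 : a 0 ≠ a 2 := fun h => by have := hinj h; simp at this
    have h12 : a 1 ≠ a 2 := fun h => by have := hinj h; simp at this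
    have k1 := h _ (hmem 0) _ (hmem 1) _ (hmem 2) h01 h02 h12
    have k2 := h _ (hmem 0) _ (hmem 2) _ (hmem 1) h02 h01 h12.symm
    have k3 := h _ (hmem 1) _ (hmem 2) _ (hmem 0) h12 h01.symm h02.symm
    rcases hε 0 with e0 | e0 <;> rcases hε 1 with e1 | e1 <;> rcases hε 2 with e2 | e2 <;>
      rw [e0, e1, e2] at h0 <;> push_cast at h0
    · exact k1.1 (by linear_combination -h0)
    · exact k1.2 (by linear_combination -h0)
    · exact k2.2 (by linear_combination -h0)
    · exact k3.2 (by linear_combination h0)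
    · exact k3.2 (by linear_combination -h0)
    · exact k2.2 (by linear_combination h0)
    · exact k1.2 (by linear_combination h0)
    · exact k1.1 (by linear_combination h0)

theorem Good.mono {n : ℕ} {A B : Finset (ZMod n)} (h : Good A) (hB : B ⊆ A) : Good B :=
  fun a ha b hb c hc => h a (hB ha) b (hB hb) c (hB hc)

/-- Upper bound, sets without zero. -/
theorem upper_no_zero {p : ℕ} [Fact p.Prime] (A : Finset (ZMod p)) (hA : Good A)
    (h0 : (0 : ZMod p) ∉ A) : A.card ≤ p / 3 + 1 := by
  classical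
  by_contra hcon
  push Not at hcon
  obtain ⟨B, hBA, hBc⟩ := Finset.exists_subset_card_eq (show p / 3 + 2 ≤ A.card by omega)
  have hB := hA.mono hBA
  have h0B : (0 : ZMod p) ∉ B := fun h => h0 (hBA h)
  have hp0 := (Fact.out (p := p.Prime)).two_le
  have hEH := erdos_heilbronn B (by omega) (by rw [hBc]; omega)
  have hdisj : Disjoint (rs B) B := by
    rw [Finset.disjoint_left]
    intro x hx hxB
    unfold rs at hx
    rw [Finset.mem_image] at hx
    obtain ⟨⟨a, b⟩, hab, rfl⟩ := hx
    rw [Finset.mem_offDiag] at hab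
    obtain ⟨ha, hb, hne⟩ := hab
    simp only at ha hb hne hxB
    have hb0 : b ≠ 0 := fun h => h0B (h ▸ hb)
    have ha0 : a ≠ 0 := fun h => h0B (h ▸ ha)
    refine (hB a ha b hb (a + b) hxB hne ?_ ?_).2 rfl
    · intro h; exact hb0 (by linear_combination -h)
    · intro h; exact ha0 (by linear_combination -h)
  have hle := Finset.card_le_univ (rs B ∪ B)
  rw [Finset.card_union_of_disjoint hdisj, ZMod.card] at hle
  omega

/-- Upper bound, sets containing zero. -/
theorem upper_zero {p : ℕ} [Fact p.Prime] (hp3 : 3 ≤ p) (A : Finset (ZMod p)) (hA : Good A)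
    (h0 : (0 : ZMod p) ∈ A) : A.card ≤ (p + 7) / 4 := by
  classical
  have hp := Fact.out (p := p.Prime)
  have h2 : (2 : ZMod p) ≠ 0 := by
    intro h
    have h' : ((2 : ℕ) : ZMod p) = 0 := by exact_mod_cast h
    rw [ZMod.natCast_eq_zero_iff] at h'
    exact absurd (Nat.le_of_dvd (by norm_num) h') (by omega)
  set A' := A.erase 0 with hA'
  have hcard : A.card = A'.card + 1 := by
    rw [hA', Finset.card_erase_of_mem h0]
    have := Finset.card_pos.2 ⟨0, h0⟩
    omega
  rcases Finset.eq_empty_or_nonempty A' with he | ⟨s, hs⟩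
  · rw [hcard, he, Finset.card_empty]
    omega
  have mem' : ∀ a ∈ A', a ∈ A ∧ a ≠ 0 := fun a ha =>
    ⟨Finset.mem_of_mem_erase ha, Finset.ne_of_mem_erase ha⟩
  -- `A' ∩ -A' = ∅`
  have hneg : ∀ a ∈ A', ∀ b ∈ A', a + b ≠ 0 := by
    intro a ha b hb hab
    obtain ⟨ha1, ha2⟩ := mem' a ha
    obtain ⟨hb1, hb2⟩ := mem' b hb
    by_cases hne : a = b
    · subst hne
      have : (2 : ZMod p) * a = 0 := by linear_combination hab
      rcases mul_eq_zero.1 this with h | h
      · exact h2 h
      · exact ha2 h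
    · exact (hA a ha1 b hb1 0 h0 hne ha2 hb2).1 (by linear_combination hab)
  set S := A' ∪ -A' with hS
  have hdisj : Disjoint A' (-A') := by
    rw [Finset.disjoint_left]
    intro x hx hx'
    rw [Finset.mem_neg] at hx'
    obtain ⟨y, hy, rfl⟩ := hx'
    exact hneg _ hx _ hy (by ring)
  have hScard : S.card = 2 * A'.card := by
    rw [hS, Finset.card_union_of_disjoint hdisj, Finset.card_neg]
    ring
  have memS : ∀ x, x ∈ S ↔ x ∈ A' ∨ -x ∈ A' := by
    intro x
    rw [hS, Finset.mem_union, Finset.mem_neg]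
    constructor
    · rintro (h | ⟨y, hy, rfl⟩)
      · exact Or.inl h
      · right; rwa [neg_neg]
    · rintro (h | h)
      · exact Or.inl h
      · exact Or.inr ⟨_, h, neg_neg x⟩
  obtain ⟨hs1, hs2⟩ := mem' s hs
  -- the translate
  set S' := S.image (fun x => s + x) with hS'
  have hS'card : S'.card = S.card := Finset.card_image_of_injective _ (add_right_injective s)
  have hinter : S ∩ S' ⊆ {2 * s, -s, s * 2⁻¹} := by
    intro y hy
    rw [Finset.mem_inter, hS', Finset.mem_image] at hy
    obtain ⟨hy1, x, hx, rfl⟩ := hy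
    rw [memS] at hy1 hx
    rw [Finset.mem_insert, Finset.mem_insert, Finset.mem_singleton]
    -- generic: distinct elements of `A'`
    have gen : ∀ b ∈ A', ∀ c ∈ A', s ≠ b → s ≠ c → b ≠ c →
        s + b + c ≠ 0 ∧ s + b ≠ c ∧ s + c ≠ b ∧ b + c ≠ s := by
      intro b hb c hc h1 h2 h3
      obtain ⟨hb1, _⟩ := mem' b hb
      obtain ⟨hc1, _⟩ := mem' c hc
      exact ⟨(hA s hs1 b hb1 c hc1 h1 h2 h3).1, (hA s hs1 b hb1 c hc1 h1 h2 h3).2,
        (hA s hs1 c hc1 b hb1 h2 h1 h3.symm).2, (hA b hb1 c hc1 s hs1 h3 h1.symm h2.symm).2⟩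
    have inv2 : ∀ z : ZMod p, 2 * z = s → z = s * 2⁻¹ := by
      intro z hz
      rw [← hz]
      field_simp
    rcases hx with hx | hx <;> rcases hy1 with hy | hy
    · -- x = b, s + x = c
      by_cases h1 : s = x
      · left; rw [← h1]; ring
      by_cases h2' : s = s + x
      · exfalso; exact (mem' x hx).2 (by linear_combination -h2')
      by_cases h3 : x = s + x
      · exfalso; exact hs2 (by linear_combination -h3)
      exact absurd rfl (gen x hx (s + x) hy h1 h2' h3).2.1
    · -- x = b, s + x = -c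
      by_cases h1 : s = x
      · left; rw [← h1]; ring
      by_cases h2' : s = -(s + x)
      · right; left; linear_combination h2'
      by_cases h3 : x = -(s + x)
      · right; right
        apply inv2
        linear_combination h3
      exact absurd (by ring) (gen x hx (-(s + x)) hy h1 h2' h3).1
    · -- x = -b, s + x = c
      by_cases h1 : s = -x
      · exfalso
        have : s + x = 0 := by linear_combination h1
        rw [this] at hy
        exact (mem' 0 hy).2 rfl
      by_cases h2' : s = s + x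
      · exfalso; exact (mem' (-x) hx).2 (by linear_combination h2')
      by_cases h3 : -x = s + x
      · right; right
        apply inv2
        linear_combination -h3
      exact absurd (by ring) (gen (-x) hx (s + x) hy h1 h2' h3).2.2.2
    · -- x = -b, s + x = -c
      by_cases h1 : s = -x
      · exfalso
        have : s + x = 0 := by linear_combination h1
        rw [this] at hy
        rw [neg_zero] at hy
        exact (mem' 0 hy).2 rfl
      by_cases h2' : s = -(s + x)
      · right; left; linear_combination h2'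
      by_cases h3 : -x = -(s + x)
      · exfalso; exact hs2 (by linear_combination h3)
      exact absurd (by ring) (gen (-x) hx (-(s + x)) hy h1 h2' h3).2.2.1
  have hinter' : (S ∩ S').card ≤ 3 := (Finset.card_le_card hinter).trans Finset.card_le_three
  have hle := Finset.card_le_univ (S ∪ S')
  rw [ZMod.card] at hle
  have hui := Finset.card_union_add_card_inter S S'
  rw [hcard]
  omega

theorem upper {p : ℕ} (hp : p.Prime) (hp3 : 3 ≤ p) (A : Finset (ZMod p)) (hA : Good A) :
    A.card ≤ if p = 5 then 3 else p / 3 + 1 := by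
  have : Fact p.Prime := ⟨hp⟩
  by_cases h0 : (0 : ZMod p) ∈ A
  · have := upper_zero hp3 A hA h0
    have h4 : p ≠ 4 := by rintro rfl; exact absurd hp (by decide)
    split_ifs with h5 <;> omega
  · have := upper_no_zero A hA h0
    split_ifs with h5 <;> omega

/-- An interval of residues. -/
theorem interval_good {p lo hi : ℕ} (_h0 : 1 ≤ lo) (h1 : p < 3 * lo + 3) (h2 : 3 * hi < 2 * p + 3)
    (h3 : hi < 2 * lo + 1) (h4 : 2 * hi < p + lo + 1) (h5 : hi < p) :
    ∃ A : Finset (ZMod p), Good A ∧ A.card = hi + 1 - lo := by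
  classical
  refine ⟨(Finset.Icc lo hi).image (fun i : ℕ => (i : ZMod p)), ?_, ?_⟩
  · intro a ha b hb c hc hab hac hbc
    rw [Finset.mem_image] at ha hb hc
    obtain ⟨i, hi', rfl⟩ := ha
    obtain ⟨j, hj', rfl⟩ := hb
    obtain ⟨k, hk', rfl⟩ := hc
    rw [Finset.mem_Icc] at hi' hj' hk'
    have nij : i ≠ j := fun h => hab (by rw [h])
    have nik : i ≠ k := fun h => hac (by rw [h])
    have njk : j ≠ k := fun h => hbc (by rw [h])
    have nodvd : ∀ y : ℤ, 0 < y → y < p → ¬ (p : ℤ) ∣ y := by
      intro y hy hym hdvd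
      exact absurd (Int.le_of_dvd hy hdvd) (by linarith)
    constructor
    · intro h
      have h' : (((i : ℤ) + j + k - p : ℤ) : ZMod p) = 0 := by
        push_cast
        rw [h]; simp
      rw [ZMod.intCast_zmod_eq_zero_iff_dvd] at h'
      exact nodvd _ (by omega) (by omega) h'
    · intro h
      have h' : (((i : ℤ) + j - k : ℤ) : ZMod p) = 0 := by
        push_cast
        rw [h]; simp
      rw [ZMod.intCast_zmod_eq_zero_iff_dvd] at h'
      exact nodvd _ (by omega) (by omega) h'
  · rw [Finset.card_image_of_injOn, Nat.card_Icc]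
    intro i hi' j hj' hij
    rw [Finset.mem_coe, Finset.mem_Icc] at hi' hj'
    have : (i : ZMod p) = (j : ZMod p) := hij
    rw [ZMod.natCast_eq_natCast_iff'] at this
    rwa [Nat.mod_eq_of_lt (by omega), Nat.mod_eq_of_lt (by omega)] at this

/-- Few elements. -/
theorem small_good {n : ℕ} (A : Finset (ZMod n)) (h : A.card ≤ 2) : Good A := by
  intro a ha b hb c hc hab hac hbc
  exfalso
  have : ({a, b, c} : Finset (ZMod n)).card = 3 := Finset.card_eq_three.2 ⟨a, b, c, hab, hac, hbc, rfl⟩
  have hsub : ({a, b, c} : Finset (ZMod n)) ⊆ A := by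
    intro x hx
    simp only [Finset.mem_insert, Finset.mem_singleton] at hx
    rcases hx with rfl | rfl | rfl <;> assumption
  have := Finset.card_le_card hsub
  omega

theorem lower {p : ℕ} (hp : p.Prime) (hp3 : 3 ≤ p) :
    ∃ A : Finset (ZMod p), Good A ∧ A.card = if p = 5 then 3 else p / 3 + 1 := by
  classical
  by_cases h3 : p = 3
  · subst h3
    refine ⟨{0, 1}, small_good _ Finset.card_le_two, ?_⟩
    decide
  by_cases h5 : p = 5
  · subst h5
    refine ⟨{0, 1, 2}, ?_, ?_⟩
    · unfold Good; decide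
    · decide
  rw [if_neg h5]
  have hnd : ¬ 3 ∣ p := by
    intro h
    rcases (Nat.dvd_prime hp).1 h with h | h <;> omega
  have hmod : p % 3 = 1 ∨ p % 3 = 2 := by omega
  have hp7 : 7 ≤ p := by
    by_contra hlt
    have h4 : p = 4 ∨ p = 6 := by omega
    rcases h4 with rfl | rfl <;> exact absurd hp (by decide)
  rcases hmod with hm | hm
  · obtain ⟨A, hA, hc⟩ := interval_good (p := p) (lo := p / 3) (hi := 2 * (p / 3)) (by omega)
      (by omega) (by omega) (by omega) (by omega) (by omega)
    exact ⟨A, hA, by omega⟩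
  · obtain ⟨A, hA, hc⟩ := interval_good (p := p) (lo := p / 3 + 1) (hi := 2 * (p / 3) + 1) (by omega)
      (by omega) (by omega) (by omega) (by omega) (by omega)
    exact ⟨A, hA, by omega⟩

theorem tau_eq {n k : ℕ} (h1 : ∃ A : Finset (ZMod n), Good A ∧ A.card = k)
    (h2 : ∀ A : Finset (ZMod n), Good A → A.card ≤ k) : tau n 3 = k := by
  have : IsGreatest {k : ℕ | ∃ A : Finset (ZMod n), (0 : ZMod n) ∉ rsSum 3 A ∧ A.card = k} k := by
    constructor
    · obtain ⟨A, hA, hc⟩ := h1
      exact ⟨A, (good_iff A).2 hA, hc⟩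
    · rintro m ⟨A, hA, rfl⟩
      exact h2 A ((good_iff A).1 hA)
  exact this.csSup_eq

/-- **Main result** (MP_6ea067_co, Q1): the value of `τ_±^(ℤ_p,3)` for every prime `p`. -/
theorem result (p : ℕ) (hp : p.Prime) :
    tau p 3 = if p = 2 then 2 else if p = 5 then 3 else p / 3 + 1 := by
  by_cases h2 : p = 2
  · subst h2
    rw [if_pos rfl]
    refine tau_eq ⟨Finset.univ, small_good _ (by decide), by decide⟩ (fun A _ => ?_)
    have := Finset.card_le_univ A
    rwa [ZMod.card] at this
  · rw [if_neg h2]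
    have hp3 : 3 ≤ p := by
      have := hp.two_le
      omega
    exact tau_eq (lower hp hp3) (fun A hA => upper hp hp3 A hA)

end Pool.Agent.Results.MP_6ea067_co.TauThree
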